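import Pool.Agent.R755.Mx.Supp

/-!
# The maximising measures on the balls of `ℝ³`
-/

set_option autoImplicit false

namespace Pool.Agent.Results.MP_91ee6f_gt.BallDimensionThree

open MeasureTheory Metric Set
open scoped ENNReal

/-- Three dimensional Euclidean space. -/
abbrev E3 := EuclideanSpace ℝ (Fin 3)

/-- `∬ exp(-|x-y|) dμ(x) dμ(y)`. -/
noncomputable def energy (μ : Measure E3) : ℝ := ∫ x, ∫ y, Real.exp (-dist x y) ∂μ ∂μ

/-- `μ` is a maximising measure on the closed ball of radius `R` centred at the origin: it is a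
probability measure on the ball which minimises the energy among all of them. -/
def IsMaximising (R : ℝ) (μ : Measure E3) : Prop :=
  IsProbabilityMeasure μ ∧ μ (closedBall 0 R)ᶜ = 0 ∧
    ∀ ν : Measure E3, IsProbabilityMeasure ν → ν (closedBall 0 R)ᶜ = 0 → energy μ ≤ energy ν

/-- The uniform probability measure on the sphere of radius `s` centred at the origin. -/
noncomputable def unif (s : ℝ) : Measure E3 :=
  (((volume : Measure E3).toSphere univ)⁻¹ • (volume : Measure E3).toSphere).map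
    (fun θ : sphere (0 : E3) 1 => s • (θ : E3))

/-- The weight of the inner sphere. -/
noncomputable def β (R ρ : ℝ) : ℝ := ρ / 2 * (ρ + 1 - (ρ + 2) / (R - ρ))

/-- The weight of the outer sphere. -/
noncomputable def γ (R ρ : ℝ) : ℝ := R / 2 * Real.exp (R - ρ) * ((ρ + 2) / (R - ρ))

/-- The total mass of the measure `(8π)⁻¹ Lebesgue on the ball of radius ρ + β σ_ρ + γ σ_R`. -/
noncomputable def mass (R ρ : ℝ) : ℝ := ρ ^ 3 / 6 + β R ρ + γ R ρ

/-- The probability measure proportional to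
`(8π)⁻¹ Lebesgue on the ball of radius ρ + β σ_ρ + γ σ_R`. -/
noncomputable def mix (R ρ : ℝ) : Measure E3 :=
  (ENNReal.ofReal (mass R ρ))⁻¹ •
    (ENNReal.ofReal (1 / (8 * Real.pi)) • volume.restrict (closedBall (0 : E3) ρ) +
      ENNReal.ofReal (β R ρ) • unif ρ + ENNReal.ofReal (γ R ρ) • unif R)

/-- The equation for the radius `ρ` of the inner ball. -/
def Eqn (R ρ : ℝ) : Prop :=
  (ρ * (1 + (R - ρ)) - 2) * Real.exp (-(R - ρ)) + (ρ + 2) * Real.sinh (R - ρ) / (R - ρ) = 2 * R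

theorem energy_eq (μ : Measure E3) : energy μ = Pool.Agent.R755.Mx.En μ μ := by
  unfold energy Pool.Agent.R755.Mx.En
  simp_rw [dist_eq_norm]

theorem max_iff {R : ℝ} (μ₀ : Measure E3) [IsProbabilityMeasure μ₀] (c : ℝ)
    (h1 : ∀ x : E3, ‖x‖ ≤ R → c ≤ Pool.Agent.R755.Mx.pot μ₀ x)
    (h2 : ∀ᵐ x ∂μ₀, Pool.Agent.R755.Mx.pot μ₀ x = c)
    (h3 : μ₀ (closedBall (0 : E3) R)ᶜ = 0) (μ : Measure E3) : IsMaximising R μ ↔ μ = μ₀ := by
  rw [← Pool.Agent.R755.Mx.opt_ball μ₀ c h1 h2 h3 μ]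
  unfold IsMaximising
  simp_rw [energy_eq]

theorem eqn_iff (R ρ : ℝ) : Eqn R ρ ↔ Pool.Agent.R755.Mx.TT R ρ = 0 := by
  unfold Eqn Pool.Agent.R755.Mx.TT
  constructor <;> intro h <;> linarith

theorem SS_iff (R : ℝ) : 2 * R ^ 2 * Real.exp (-R) - (1 - (1 + 2 * R) * Real.exp (-(2 * R))) =
    -(2 * Real.exp (-R)) * Pool.Agent.R755.Mx.SS R := by
  unfold Pool.Agent.R755.Mx.SS
  rw [Real.sinh_eq]
  have a1 : Real.exp (-(2 * R)) = Real.exp (-R) * Real.exp (-R) := by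
    rw [← Real.exp_add]; congr 1; ring
  have a2 : Real.exp (-R) * Real.exp R = 1 := by rw [← Real.exp_add]; simp
  rw [a1]
  linear_combination a2

theorem sphere_case {R : ℝ} (hR : 0 < R) (hS : Pool.Agent.R755.Mx.SS R ≤ 0) :
    (∀ μ, IsMaximising R μ ↔ μ = unif R) ∧ (unif R).support = sphere 0 R ∧
      energy (unif R) = (1 - (1 + 2 * R) * Real.exp (-(2 * R))) / (2 * R ^ 2) := by
  have hae : ∀ᵐ x ∂(Pool.Agent.R755.Mx.sph R),
      Pool.Agent.R755.Mx.pot (Pool.Agent.R755.Mx.sph R) x = Pool.Agent.R755.Mx.cS R := by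
    filter_upwards [Pool.Agent.R755.Mx.sph_norm hR] with x hx
    exact Pool.Agent.R755.Mx.pot_sphere_eq hR hx
  have h3 : Pool.Agent.R755.Mx.sph R (closedBall (0 : E3) R)ᶜ = 0 := by
    have : ∀ᵐ x ∂(Pool.Agent.R755.Mx.sph R), x ∈ closedBall (0 : E3) R := by
      filter_upwards [Pool.Agent.R755.Mx.sph_norm hR] with x hx
      rw [mem_closedBall_zero_iff]; exact hx.le
    exact ae_iff.1 this
  refine ⟨fun μ => max_iff (Pool.Agent.R755.Mx.sph R) _ (Pool.Agent.R755.Mx.pot_sphere_ge hR hS)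
    hae h3 μ, Pool.Agent.R755.Mx.supp_sph hR, ?_⟩
  rw [energy_eq]
  exact Pool.Agent.R755.Mx.En_const (Pool.Agent.R755.Mx.sph R) _ hae

theorem mix_eq (R ρ : ℝ) : mix R ρ = Pool.Agent.R755.Mx.mu R ρ := rfl

theorem mix_case {R ρ : ℝ} (h0 : 0 < ρ) (h1 : ρ < R) (hT : Eqn R ρ) :
    0 < β R ρ ∧ 0 < γ R ρ ∧ (∀ μ, IsMaximising R μ ↔ μ = mix R ρ) ∧
      (mix R ρ).support = closedBall 0 ρ ∪ sphere 0 R ∧
      (∀ F : Set ℝ, F.Finite → (mix R ρ).support ≠ ⋃ r ∈ F, sphere (0 : E3) r) ∧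
      energy (mix R ρ) = (mass R ρ)⁻¹ := by
  rw [eqn_iff] at hT
  have hp := Pool.Agent.R755.Mx.mu_prob h0 h1 hT
  have hae := Pool.Agent.R755.Mx.pot_mu_ae h0 h1 hT
  have hm := Pool.Agent.R755.Mx.mas_pos h0 h1 hT
  have hsupp := Pool.Agent.R755.Mx.supp_mu h0 h1 hT
  have hge : ∀ x : E3, ‖x‖ ≤ R → (Pool.Agent.R755.Mx.mas R ρ)⁻¹ ≤
      Pool.Agent.R755.Mx.pot (Pool.Agent.R755.Mx.mu R ρ) x := by
    intro x hx
    rw [Pool.Agent.R755.Mx.pot_mu h0 h1 hT]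
    have := Pool.Agent.R755.Mx.pot_ge h0 h1 hT x hx
    have h2 : 0 < (Pool.Agent.R755.Mx.mas R ρ)⁻¹ := by positivity
    nlinarith
  have h3 : Pool.Agent.R755.Mx.mu R ρ (closedBall (0 : E3) R)ᶜ = 0 := by
    have : ∀ᵐ x ∂(Pool.Agent.R755.Mx.mu R ρ), x ∈ closedBall (0 : E3) R := by
      filter_upwards [Pool.Agent.R755.Mx.mu_ae h0 h1] with x hx
      rw [mem_closedBall_zero_iff]
      rcases hx.2 with h | h <;> linarith
    exact ae_iff.1 this
  refine ⟨Pool.Agent.R755.Mx.bet_pos h0 h1 hT, Pool.Agent.R755.Mx.gamm_pos h0 h1,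
    fun μ => max_iff (Pool.Agent.R755.Mx.mu R ρ) _ hge hae h3 μ, hsupp, ?_, ?_⟩
  · intro F hF
    rw [mix_eq, hsupp]
    exact Pool.Agent.R755.Mx.not_spheres h0 R F hF
  · rw [energy_eq]
    exact Pool.Agent.R755.Mx.En_const (Pool.Agent.R755.Mx.mu R ρ) _ hae

theorem le_of_union {ρ ρ' R : ℝ} (h0 : 0 < ρ) (h1 : ρ < R)
    (h : closedBall (0 : E3) ρ ∪ sphere 0 R = closedBall 0 ρ' ∪ sphere 0 R) : ρ ≤ ρ' := by
  set v : E3 := EuclideanSpace.single 0 ρ with hv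
  have hvn : ‖v‖ = ρ := by rw [hv]; simp [abs_of_pos h0]
  have h2 : v ∈ closedBall (0 : E3) ρ ∪ sphere 0 R := by
    left; rw [mem_closedBall_zero_iff, hvn]
  rw [h] at h2
  rcases h2 with h2 | h2
  · rw [mem_closedBall_zero_iff, hvn] at h2; exact h2
  · rw [mem_sphere_zero_iff_norm, hvn] at h2; linarith

/-- The maximising measures on all balls of `ℝ³`. There is a radius `R₀` in `(5/2, 3)`, a root of
`2R²e^{-R} = 1 - (1+2R)e^{-2R}`, such that for `R ≤ R₀` the maximising measure is the uniform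
measure on the bounding sphere, while for `R > R₀` it is proportional to
`(8π)⁻¹ Lebesgue on the ball of radius ρ + β σ_ρ + γ σ_R` with `β, γ > 0` and `ρ` the unique root of
the equation `Eqn R ρ` in `(0, R)`; its support is the union of the ball of radius `ρ` and the
sphere of radius `R`, and is not a finite union of spheres centred at the origin. -/
theorem result : ∃ R₀ : ℝ, 5 / 2 < R₀ ∧ R₀ < 3 ∧
    2 * R₀ ^ 2 * Real.exp (-R₀) = 1 - (1 + 2 * R₀) * Real.exp (-(2 * R₀)) ∧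
    (∀ R, 0 < R → R ≤ R₀ →
      (∀ μ, IsMaximising R μ ↔ μ = unif R) ∧ (unif R).support = sphere 0 R ∧
        energy (unif R) = (1 - (1 + 2 * R) * Real.exp (-(2 * R))) / (2 * R ^ 2)) ∧
    (∀ R, R₀ < R → ∃ ρ, 0 < ρ ∧ ρ < R ∧ Eqn R ρ ∧
      (∀ ρ', 0 < ρ' → ρ' < R → Eqn R ρ' → ρ' = ρ) ∧ 0 < β R ρ ∧ 0 < γ R ρ ∧
      (∀ μ, IsMaximising R μ ↔ μ = mix R ρ) ∧
      (mix R ρ).support = closedBall 0 ρ ∪ sphere 0 R ∧
      (∀ F : Set ℝ, F.Finite → (mix R ρ).support ≠ ⋃ r ∈ F, sphere (0 : E3) r) ∧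
      energy (mix R ρ) = (mass R ρ)⁻¹) := by
  obtain ⟨R₀, h1, h2, h3, h4, h5⟩ := Pool.Agent.R755.Mx.threshold
  refine ⟨R₀, h1, h2, ?_, ?_, ?_⟩
  · have := SS_iff R₀
    rw [h3] at this
    linarith
  · intro R hR hRR
    exact sphere_case hR (h4 R hR hRR)
  · intro R hRR
    have hR : 0 < R := by linarith
    obtain ⟨ρ, hρ0, hρ1, hρT⟩ := Pool.Agent.R755.Mx.exists_rho hR (h5 R hRR)
    have hE : Eqn R ρ := (eqn_iff R ρ).2 hρT
    obtain ⟨k1, k2, k3, k4, k5, k6⟩ := mix_case hρ0 hρ1 hE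
    refine ⟨ρ, hρ0, hρ1, hE, ?_, k1, k2, k3, k4, k5, k6⟩
    intro ρ' h0' h1' hE'
    obtain ⟨_, _, m3, m4, _, _⟩ := mix_case h0' h1' hE'
    have h6 : mix R ρ' = mix R ρ := (k3 _).1 ((m3 _).2 rfl)
    have h7 : closedBall (0 : E3) ρ' ∪ sphere 0 R = closedBall 0 ρ ∪ sphere 0 R := by
      rw [← m4, ← k4, h6]
    exact le_antisymm (le_of_union h0' h1' h7) (le_of_union hρ0 hρ1 h7.symm)

end Pool.Agent.Results.MP_91ee6f_gt.BallDimensionThree
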